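import Mathlib

/-!
# LPECC codes: definitions

Binary words of length `n` are functions `Fin n → ZMod 2`; the weight is Mathlib's `hammingNorm`
and the distance is Mathlib's `hammingDist`.
-/

namespace Pool.Agent.Work.MP_00ae1c_co

/-- `IsLPECC n t w e b P`: the sets of words `P 0, …, P (b-1)` are the `b` classes of an
`(n,t,w,e)`-LPECC code.  That is, they are nonempty and pairwise disjoint (so they partition their
union, the code); for every `t`-subset `T` of the coordinates each class contains a word whose
support misses `T`; every word has weight at most `w`; words in different classes are at Hamming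
distance at least `2e+1`. -/
structure IsLPECC (n t w e b : ℕ) (P : Fin b → Finset (Fin n → ZMod 2)) : Prop where
  nonempty : ∀ i, (P i).Nonempty
  disjoint : ∀ i j, i ≠ j → Disjoint (P i) (P j)
  avoid : ∀ T : Finset (Fin n), T.card = t → ∀ i, ∃ x ∈ P i, ∀ k ∈ T, x k = 0
  weight : ∀ i, ∀ x ∈ P i, hammingNorm x ≤ w
  dist : ∀ i j, i ≠ j → ∀ x ∈ P i, ∀ y ∈ P j, 2 * e + 1 ≤ hammingDist x y

/-- `maxSize n t w e` is `C(n,t,w,e)`, the largest size `b` of an `(n,t,w,e)`-LPECC code. -/
noncomputable def maxSize (n t w e : ℕ) : ℕ :=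
  sSup {b : ℕ | ∃ P : Fin b → Finset (Fin n → ZMod 2), IsLPECC n t w e b P}

end Pool.Agent.Work.MP_00ae1c_co
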