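import Mathlib

/-!
# A hitting set for all `q`-cliques of size at most `|E| / (2q-3)`

We work with a symmetric irreflexive relation `adj` (decidable) on a type and finite sets `U` of
vertices.
-/

namespace Pool.Agent.Work.MP_00ae1c_co

open Finset

variable {V : Type*} [DecidableEq V]

/-- degree of `v` inside `U` -/
def dg (G : SimpleGraph V) [DecidableRel G.Adj] (U : Finset V) (v : V) : ℕ :=
  (U.filter (fun u => G.Adj v u)).card

/-- the potential of a single degree -/
noncomputable def pot (q D : ℕ) : ℚ := if q ≤ D + 1 then 1 - ((q : ℚ) - 1) / (D + 1) else 0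

lemma pot_nonneg (q D : ℕ) : 0 ≤ pot q D := by
  unfold pot
  split_ifs with h
  · have h1 : (q : ℚ) ≤ D + 1 := by exact_mod_cast h
    have h2 : (0 : ℚ) < D + 1 := by positivity
    rw [sub_nonneg, div_le_one h2]
    linarith
  · exact le_refl 0

lemma pot_mono {q D E : ℕ} (hq : 1 ≤ q) (h : D ≤ E) : pot q D ≤ pot q E := by
  by_cases h1 : q ≤ D + 1
  · have h2 : q ≤ E + 1 := by omega
    unfold pot
    rw [if_pos h1, if_pos h2]
    have h3 : (0 : ℚ) < D + 1 := by positivity
    have h4 : (D : ℚ) + 1 ≤ E + 1 := by
      have : (D : ℚ) ≤ E := by exact_mod_cast h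
      linarith
    have h5 : (0 : ℚ) ≤ (q : ℚ) - 1 := by
      have : (1 : ℚ) ≤ q := by exact_mod_cast hq
      linarith
    have := div_le_div_of_nonneg_left h5 h3 h4
    linarith
  · have : pot q D = 0 := by unfold pot; rw [if_neg h1]
    rw [this]
    exact pot_nonneg q E

/-- potential of a set -/
noncomputable def Pot (G : SimpleGraph V) [DecidableRel G.Adj] (q : ℕ) (U : Finset V) : ℚ :=
  ∑ v ∈ U, pot q (dg G U v)

lemma dg_mono (G : SimpleGraph V) [DecidableRel G.Adj] {U W : Finset V} (h : U ⊆ W) (v : V) :
    dg G U v ≤ dg G W v := by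
  unfold dg
  exact card_le_card (filter_subset_filter _ h)

lemma dg_erase_adj (G : SimpleGraph V) [DecidableRel G.Adj] {U : Finset V} {v u : V}
    (hv : v ∈ U) (h : G.Adj u v) : dg G U u = dg G (U.erase v) u + 1 := by
  unfold dg
  rw [filter_erase]
  rw [card_erase_of_mem (by simp [hv, h])]
  have : 0 < (U.filter (fun w => G.Adj u w)).card := card_pos.mpr ⟨v, by simp [hv, h]⟩
  omega

lemma exists_hitting (G : SimpleGraph V) [DecidableRel G.Adj] (q : ℕ) (hq : 2 ≤ q)
    (U : Finset V) :
    ∃ S ⊆ U, (S.card : ℚ) ≤ Pot G q U ∧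
      ∀ K : Finset V, K ⊆ U → K.card = q → (∀ x ∈ K, ∀ y ∈ K, x ≠ y → G.Adj x y) →
        ∃ x ∈ K, x ∈ S := by
  induction' hn : U.card with n ih generalizing U
  · refine ⟨∅, by simp, ?_, ?_⟩
    · simp only [card_empty, Nat.cast_zero]
      exact sum_nonneg (fun v _ => pot_nonneg _ _)
    · intro K hK hKc _
      have : U = ∅ := card_eq_zero.mp hn
      subst this
      have : K = ∅ := subset_empty.mp hK
      subst this
      simp at hKc
      omega
  · by_cases hlow : ∃ v ∈ U, dg G U v + 2 ≤ q
    · obtain ⟨v, hv, hdv⟩ := hlow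
      obtain ⟨S, hSU, hS, hhit⟩ := ih (U.erase v) (by rw [card_erase_of_mem hv]; omega)
      refine ⟨S, hSU.trans (erase_subset _ _), ?_, ?_⟩
      · refine hS.trans ?_
        unfold Pot
        calc ∑ x ∈ U.erase v, pot q (dg G (U.erase v) x)
            ≤ ∑ x ∈ U.erase v, pot q (dg G U x) :=
              sum_le_sum (fun x _ => pot_mono (by omega) (dg_mono G (erase_subset _ _) x))
          _ ≤ ∑ x ∈ U, pot q (dg G U x) :=
              sum_le_sum_of_subset_of_nonneg (erase_subset _ _)
                (fun x _ _ => pot_nonneg _ _)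
      · intro K hK hKc hcl
        by_cases hvK : v ∈ K
        · exfalso
          have h1 : K.erase v ⊆ U.filter (fun u => G.Adj v u) := by
            intro u hu
            rw [mem_erase] at hu
            rw [mem_filter]
            exact ⟨hK hu.2, hcl v hvK u hu.2 (Ne.symm hu.1)⟩
          have h2 := card_le_card h1
          rw [card_erase_of_mem hvK, hKc] at h2
          unfold dg at hdv
          omega
        · exact hhit K (fun x hx => mem_erase.mpr ⟨fun h => hvK (h ▸ hx), hK hx⟩) hKc hcl
    · push Not at hlow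
      have hne : U.Nonempty := card_pos.mp (by omega)
      obtain ⟨v, hv, hmax⟩ := exists_max_image U (fun x => dg G U x) hne
      obtain ⟨S, hSU, hS, hhit⟩ := ih (U.erase v) (by rw [card_erase_of_mem hv]; omega)
      have hvS : v ∉ S := fun h => (mem_erase.mp (hSU h)).1 rfl
      refine ⟨insert v S, ?_, ?_, ?_⟩
      · intro x hx
        rcases mem_insert.mp hx with rfl | hx
        · exact hv
        · exact (mem_erase.mp (hSU hx)).2
      · rw [card_insert_of_notMem hvS]
        push_cast
        -- main estimate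
        set D := dg G U v with hD
        have hDq : q ≤ D + 1 := by have := hlow v hv; omega
        have hDpos : 1 ≤ D := by omega
        have key : ∀ u ∈ U.erase v, pot q (dg G (U.erase v) u) +
            (if G.Adj v u then ((q : ℚ) - 1) / (D * (D + 1)) else 0) ≤ pot q (dg G U u) := by
          intro u hu
          have huU : u ∈ U := (mem_erase.mp hu).2
          split_ifs with hadj
          · have h1 : dg G U u = dg G (U.erase v) u + 1 := dg_erase_adj G hv hadj.symm
            have h2 : dg G U u ≤ D := hmax u huU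
            have h3 := hlow u huU
            set d := dg G (U.erase v) u with hd
            rw [h1] at h2 h3 ⊢
            unfold pot
            have h4 : q ≤ d + 1 + 1 := by omega
            rw [if_pos h4]
            have hq1 : (1 : ℚ) ≤ q := by exact_mod_cast (by omega : 1 ≤ q)
            have hd1 : (d : ℚ) + 1 ≤ D := by exact_mod_cast h2
            have hd0 : (0 : ℚ) ≤ d := by positivity
            have hD0 : (0 : ℚ) < D := by linarith
            have e1 : ((q : ℚ) - 1) / (D * (D + 1)) ≤ ((q : ℚ) - 1) / ((d + 1) * (d + 1 + 1)) := by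
              apply div_le_div_of_nonneg_left (by linarith) (by positivity)
              nlinarith
            have e2 : ((q : ℚ) - 1) / ((d + 1) * (d + 1 + 1)) =
                ((q : ℚ) - 1) / (d + 1) - ((q : ℚ) - 1) / (d + 1 + 1) := by
              field_simp
              ring
            have e3 : (((d + 1 : ℕ) : ℚ) + 1) = (d : ℚ) + 1 + 1 := by push_cast; ring
            rw [e3]
            split_ifs with h5
            · linarith
            · have h6 : q = d + 2 := by omega
              have h7 : ((q : ℚ) - 1) / (d + 1) = 1 := by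
                rw [h6]; push_cast; field_simp; ring
              linarith
          · rw [add_zero]
            exact pot_mono (by omega) (dg_mono G (erase_subset _ _) u)
        have hsum : Pot G q (U.erase v) + D * (((q : ℚ) - 1) / (D * (D + 1))) + pot q D
            ≤ Pot G q U := by
          unfold Pot
          rw [← add_sum_erase U _ hv]
          have h1 := sum_le_sum key
          rw [sum_add_distrib] at h1
          have h2 : ∑ u ∈ U.erase v, (if G.Adj v u then ((q : ℚ) - 1) / (D * (D + 1)) else 0)
              = D * (((q : ℚ) - 1) / (D * (D + 1))) := by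
            rw [← sum_filter, sum_const, nsmul_eq_mul]
            congr 2
            rw [hD]
            unfold dg
            congr 1
            ext u
            simp only [mem_filter, mem_erase]
            constructor
            · rintro ⟨⟨_, h⟩, h'⟩; exact ⟨h, h'⟩
            · rintro ⟨h, h'⟩; exact ⟨⟨fun e => by subst e; exact G.loopless.irrefl _ h', h⟩, h'⟩
          rw [h2] at h1
          rw [← hD]
          linarith
        have hpotD : pot q D = 1 - ((q : ℚ) - 1) / (D + 1) := by
          unfold pot; rw [if_pos hDq]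
        have hD0 : (0 : ℚ) < D := by exact_mod_cast hDpos
        have e4 : (D : ℚ) * (((q : ℚ) - 1) / (D * (D + 1))) = ((q : ℚ) - 1) / (D + 1) := by
          field_simp
        rw [e4, hpotD] at hsum
        linarith
      · intro K hK hKc hcl
        by_cases hvK : v ∈ K
        · exact ⟨v, hvK, mem_insert_self _ _⟩
        · obtain ⟨x, hx, hxS⟩ :=
            hhit K (fun x hx => mem_erase.mpr ⟨fun h => hvK (h ▸ hx), hK hx⟩) hKc hcl
          exact ⟨x, hx, mem_insert_of_mem hxS⟩

lemma pot_le (q D : ℕ) (hq : 2 ≤ q) : pot q D ≤ (D : ℚ) / (2 * (2 * q - 3)) := by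
  have hq' : (2 : ℚ) ≤ q := by exact_mod_cast hq
  have hpos : (0 : ℚ) < 2 * (2 * q - 3) := by linarith
  unfold pot
  split_ifs with h
  · have h2 : (0 : ℚ) < D + 1 := by positivity
    rw [le_div_iff₀ hpos]
    have h3 : (1 - ((q : ℚ) - 1) / (D + 1)) = (D + 2 - q) / (D + 1) := by
      field_simp; ring
    rw [h3, div_mul_eq_mul_div, div_le_iff₀ h2]
    -- (D - (2q-4)) (D - (2q-3)) ≥ 0
    have h4 : (0 : ℤ) ≤ ((D : ℤ) - (2 * q - 4)) * ((D : ℤ) - (2 * q - 3)) := by
      rcases le_or_gt (D : ℤ) (2 * q - 4) with h5 | h5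
      · nlinarith
      · nlinarith
    have h5 : (0 : ℚ) ≤ ((D : ℚ) - (2 * q - 4)) * ((D : ℚ) - (2 * q - 3)) := by exact_mod_cast h4
    nlinarith
  · positivity

/-- **Hitting set bound.** Every finite graph has a set `S` of vertices meeting all `q`-cliques with
`(2q-3)|S| ≤ |E|`. -/
theorem hitting_bound [Fintype V] (G : SimpleGraph V) [DecidableRel G.Adj] (q : ℕ) (hq : 2 ≤ q) :
    ∃ S : Finset V, (2 * q - 3) * S.card ≤ G.edgeFinset.card ∧
      ∀ K : Finset V, K.card = q → (∀ x ∈ K, ∀ y ∈ K, x ≠ y → G.Adj x y) →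
        ∃ x ∈ K, x ∈ S := by
  obtain ⟨S, -, hS, hhit⟩ := exists_hitting G q hq Finset.univ
  refine ⟨S, ?_, fun K hKc hcl => hhit K (subset_univ _) hKc hcl⟩
  have hdeg : ∀ v, dg G Finset.univ v = G.degree v := by
    intro v
    unfold dg
    rw [← SimpleGraph.card_neighborFinset_eq_degree]
    congr 1
    ext u
    simp
  have hq' : (2 : ℚ) ≤ q := by exact_mod_cast hq
  have h1 : Pot G q Finset.univ ≤ ∑ v : V, (G.degree v : ℚ) / (2 * (2 * q - 3)) := by
    unfold Pot
    apply sum_le_sum
    intro v _
    rw [hdeg]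
    exact pot_le q _ hq
  have h2 : ∑ v : V, (G.degree v : ℚ) / (2 * (2 * q - 3)) =
      (G.edgeFinset.card : ℚ) / (2 * q - 3) := by
    rw [← sum_div]
    have h3 : ∑ v : V, (G.degree v : ℚ) = 2 * (G.edgeFinset.card : ℚ) := by
      have := G.sum_degrees_eq_twice_card_edges
      exact_mod_cast this
    rw [h3]
    have : (0 : ℚ) < 2 * q - 3 := by linarith
    field_simp
  have h3 : (S.card : ℚ) ≤ (G.edgeFinset.card : ℚ) / (2 * q - 3) := by
    rw [← h2]; exact hS.trans h1
  have h4 : (0 : ℚ) < 2 * q - 3 := by linarith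
  rw [le_div_iff₀ h4] at h3
  have h5 : (((2 * q - 3 : ℕ) : ℚ)) = 2 * (q : ℚ) - 3 := by
    rw [Nat.cast_sub (by omega)]; push_cast; ring
  have h6 : (((2 * q - 3) * S.card : ℕ) : ℚ) ≤ (G.edgeFinset.card : ℚ) := by
    push_cast [h5]
    linarith
  exact_mod_cast h6

end Pool.Agent.Work.MP_00ae1c_co
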