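import Mathlib
import Pool.Agent.Work.MP_00ae1c_co.Defs
import Pool.Agent.Work.MP_00ae1c_co.Zak

namespace Pool.Agent.Work.MP_00ae1c_co

open Finset

/-- support of a binary word -/
def spt {n : ℕ} (x : Fin n → ZMod 2) : Finset (Fin n) := univ.filter (fun k => x k ≠ 0)

lemma mem_spt {n : ℕ} (x : Fin n → ZMod 2) (k : Fin n) : k ∈ spt x ↔ x k ≠ 0 := by
  simp [spt]

lemma card_spt {n : ℕ} (x : Fin n → ZMod 2) : (spt x).card = hammingNorm x := rfl

lemma norm_add_norm {n : ℕ} (x y : Fin n → ZMod 2) :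
    hammingNorm x + hammingNorm y = hammingDist x y + 2 * (spt x ∩ spt y).card := by
  have h1 : hammingNorm x = ∑ k, if x k ≠ 0 then 1 else 0 := by
    unfold hammingNorm; rw [card_filter]
  have h2 : hammingNorm y = ∑ k, if y k ≠ 0 then 1 else 0 := by
    unfold hammingNorm; rw [card_filter]
  have h3 : hammingDist x y = ∑ k, if x k ≠ y k then 1 else 0 := by
    unfold hammingDist; rw [card_filter]
  have h4 : (spt x ∩ spt y).card = ∑ k, if (x k ≠ 0 ∧ y k ≠ 0) then 1 else 0 := by
    rw [← card_filter]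
    congr 1
    ext k
    simp [mem_spt]
  rw [h1, h2, h3, h4, mul_sum, ← sum_add_distrib, ← sum_add_distrib]
  apply sum_congr rfl
  intro k _
  have : ∀ a b : ZMod 2, ((if a ≠ 0 then 1 else 0) + (if b ≠ 0 then 1 else 0) : ℕ) =
      (if a ≠ b then 1 else 0) + 2 * (if (a ≠ 0 ∧ b ≠ 0) then 1 else 0) := by decide
  exact this _ _

/-- the graph of pairs covered by a class -/
def covGraph {n : ℕ} (Q : Finset (Fin n → ZMod 2)) : SimpleGraph (Fin n) where
  Adj u v := u ≠ v ∧ ∃ x ∈ Q, x u ≠ 0 ∧ x v ≠ 0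
  symm := ⟨fun _ _ h => ⟨h.1.symm, by obtain ⟨x, hx, h1, h2⟩ := h.2; exact ⟨x, hx, h2, h1⟩⟩⟩
  loopless := ⟨fun _ h => h.1 rfl⟩

instance {n : ℕ} (Q : Finset (Fin n → ZMod 2)) : DecidableRel (covGraph Q).Adj := fun _ _ => by
  unfold covGraph; infer_instance

/-- the number of classes containing a word of weight `< w` is at most `n+1` -/
lemma card_bad {n t w b : ℕ} (hw : 4 ≤ w) {P : Fin b → Finset (Fin n → ZMod 2)}
    (hP : IsLPECC n t w (w - 2) b P) :
    (univ.filter (fun i : Fin b => ∃ x ∈ P i, hammingNorm x < w)).card ≤ n + 1 := by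
  classical
  set B := univ.filter (fun i : Fin b => ∃ x ∈ P i, hammingNorm x < w) with hB
  have hch : ∀ i : Fin b, ∃ x : Fin n → ZMod 2, i ∈ B → (x ∈ P i ∧ hammingNorm x < w) := by
    intro i
    by_cases hi : i ∈ B
    · obtain ⟨x, hx, hx'⟩ := (mem_filter.mp hi).2
      exact ⟨x, fun _ => ⟨hx, hx'⟩⟩
    · exact ⟨0, fun h => absurd h hi⟩
  choose f hf using hch
  have hdisj : ∀ i ∈ B, ∀ j ∈ B, i ≠ j → (spt (f i) ∩ spt (f j)).card = 0 ∧
      0 < (spt (f i)).card + (spt (f j)).card := by
    intro i hi j hj hij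
    have h1 := hP.dist i j hij (f i) (hf i hi).1 (f j) (hf j hj).1
    have h2 := norm_add_norm (f i) (f j)
    have h3 := (hf i hi).2
    have h4 := (hf j hj).2
    rw [card_spt, card_spt]
    constructor <;> omega
  let g : Fin b → Option (Fin n) := fun i =>
    if h : (spt (f i)).Nonempty then some ((spt (f i)).min' h) else none
  have hinj : Set.InjOn g B := by
    intro i hi j hj hg
    by_contra hij
    obtain ⟨h1, h2⟩ := hdisj i hi j hj hij
    simp only [g] at hg
    split_ifs at hg with h3 h4 h4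
    · have h5 : (spt (f i)).min' h3 = (spt (f j)).min' h4 := Option.some.inj hg
      have h6 : (spt (f i)).min' h3 ∈ spt (f i) ∩ spt (f j) :=
        mem_inter.mpr ⟨min'_mem _ _, h5 ▸ min'_mem _ _⟩
      have h7 := card_pos.mpr ⟨_, h6⟩
      omega
    · rw [not_nonempty_iff_eq_empty] at h3 h4
      rw [h3, h4] at h2
      simp at h2
  calc B.card = (B.image g).card := (card_image_of_injOn hinj).symm
    _ ≤ (univ : Finset (Option (Fin n))).card := card_le_card (subset_univ _)
    _ = n + 1 := by simp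

/-- **Upper bound.** -/
theorem upper_bound {n t w b : ℕ} (hw : 4 ≤ w) (hn : t ≤ n)
    {P : Fin b → Finset (Fin n → ZMod 2)}
    (hP : IsLPECC n t w (w - 2) b P) :
    (2 * w - 3) * (t + 1) * b ≤ n.choose 2 + (2 * w - 3) * (t + 1) * (n + 1) := by
  classical
  set B := univ.filter (fun i : Fin b => ∃ x ∈ P i, hammingNorm x < w) with hB
  set A := univ.filter (fun i : Fin b => ¬ ∃ x ∈ P i, hammingNorm x < w) with hA
  have hAB : B.card + A.card = b := by
    rw [hA, hB, card_filter_add_card_filter_not]; simp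
  have hBc : B.card ≤ n + 1 := card_bad hw hP
  -- weights of words in good classes
  have hwt : ∀ i ∈ A, ∀ x ∈ P i, hammingNorm x = w := by
    intro i hi x hx
    have h1 := (mem_filter.mp hi).2
    push Not at h1
    exact le_antisymm (hP.weight i x hx) (h1 x hx)
  -- number of covered pairs
  have hcov : ∀ i ∈ A, (2 * w - 3) * (t + 1) ≤ (covGraph (P i)).edgeFinset.card := by
    intro i hi
    obtain ⟨S, hS, hhit⟩ := hitting_bound (covGraph (P i)) w (by omega)
    have hSt : t + 1 ≤ S.card := by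
      by_contra hlt
      push Not at hlt
      obtain ⟨T, hST, -, hT⟩ := exists_subsuperset_card_eq (subset_univ S)
        (by omega : S.card ≤ t) (by simpa using hn)
      obtain ⟨x, hx, hxT⟩ := hP.avoid T hT i
      have hxw : (spt x).card = w := by rw [card_spt]; exact hwt i hi x hx
      obtain ⟨k, hk, hkS⟩ := hhit (spt x) hxw (by
        intro u hu v hv huv
        exact ⟨huv, x, hx, (mem_spt _ _).mp hu, (mem_spt _ _).mp hv⟩)
      exact (mem_spt _ _).mp hk (hxT k (hST hkS))
    calc (2 * w - 3) * (t + 1) ≤ (2 * w - 3) * S.card := Nat.mul_le_mul_left _ hSt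
      _ ≤ _ := hS
  have hdisj : ∀ i ∈ A, ∀ j ∈ A, i ≠ j →
      Disjoint (covGraph (P i)).edgeFinset (covGraph (P j)).edgeFinset := by
    intro i hi j hj hij
    rw [Finset.disjoint_left]
    intro e he1 he2
    rw [SimpleGraph.mem_edgeFinset] at he1 he2
    induction e using Sym2.ind with
    | _ u v =>
      rw [SimpleGraph.mem_edgeSet] at he1 he2
      obtain ⟨huv, x, hx, hxu, hxv⟩ := he1
      obtain ⟨-, y, hy, hyu, hyv⟩ := he2
      have h1 := hP.dist i j hij x hx y hy
      have h2 := norm_add_norm x y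
      rw [hwt i hi x hx, hwt j hj y hy] at h2
      have h3 : 2 ≤ (spt x ∩ spt y).card := by
        rw [← card_pair huv]
        apply card_le_card
        intro k hk
        rw [mem_insert, mem_singleton] at hk
        rcases hk with rfl | rfl
        · exact mem_inter.mpr ⟨(mem_spt _ _).mpr hxu, (mem_spt _ _).mpr hyu⟩
        · exact mem_inter.mpr ⟨(mem_spt _ _).mpr hxv, (mem_spt _ _).mpr hyv⟩
      omega
  have hsum : ∑ i ∈ A, (covGraph (P i)).edgeFinset.card ≤ n.choose 2 := by
    rw [← card_biUnion hdisj]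
    calc (A.biUnion fun i => (covGraph (P i)).edgeFinset).card
        ≤ (⊤ : SimpleGraph (Fin n)).edgeFinset.card := by
          apply card_le_card
          intro e he
          rw [mem_biUnion] at he
          obtain ⟨i, -, hi⟩ := he
          rw [SimpleGraph.mem_edgeFinset] at hi ⊢
          exact SimpleGraph.edgeSet_mono le_top hi
      _ = n.choose 2 := by rw [SimpleGraph.card_edgeFinset_top_eq_card_choose_two]; simp
  have hgood : (2 * w - 3) * (t + 1) * A.card ≤ n.choose 2 := by
    calc (2 * w - 3) * (t + 1) * A.card = ∑ i ∈ A, (2 * w - 3) * (t + 1) := by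
          rw [sum_const, smul_eq_mul, mul_comm]
      _ ≤ ∑ i ∈ A, (covGraph (P i)).edgeFinset.card := sum_le_sum hcov
      _ ≤ _ := hsum
  calc (2 * w - 3) * (t + 1) * b = (2 * w - 3) * (t + 1) * (B.card + A.card) :=
        congrArg _ hAB.symm
    _ = (2 * w - 3) * (t + 1) * A.card + (2 * w - 3) * (t + 1) * B.card := by ring
    _ ≤ _ := add_le_add hgood (Nat.mul_le_mul_left _ hBc)

end Pool.Agent.Work.MP_00ae1c_co
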