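import Mathlib
import Pool.Agent.Work.MP_00ae1c_co.Defs
import Pool.Agent.Work.MP_00ae1c_co.Upper

namespace Pool.Agent.Work.MP_00ae1c_co

open Finset

/-- a family of classes of `w`-sets, any two words of different classes sharing at most one point,
each class resisting the deletion of `t` points -/
structure IsPack {V ι : Type*} [DecidableEq V] (t w : ℕ) (P : ι → Finset (Finset V)) : Prop where
  card_eq : ∀ i, ∀ x ∈ P i, x.card = w
  avoid : ∀ i, ∀ T : Finset V, T.card ≤ t → ∃ x ∈ P i, Disjoint x T
  inter : ∀ i j, i ≠ j → ∀ x ∈ P i, ∀ y ∈ P j, (x ∩ y).card ≤ 1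

def HasPack (t w n b : ℕ) : Prop := ∃ P : Fin b → Finset (Finset (Fin n)), IsPack t w P

lemma IsPack.map {V W ι : Type*} [DecidableEq V] [DecidableEq W] {t w : ℕ}
    {P : ι → Finset (Finset V)} (hP : IsPack t w P) (f : V ↪ W) :
    IsPack t w (fun i => (P i).map (mapEmbedding f).toEmbedding) := by
  constructor
  · intro i x hx
    rw [mem_map] at hx
    obtain ⟨y, hy, rfl⟩ := hx
    simp only [RelEmbedding.coe_toEmbedding, mapEmbedding_apply, card_map]
    exact hP.card_eq i y hy
  · intro i T hT
    have h1 : (T.preimage f f.injective.injOn).card ≤ t := by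
      refine le_trans ?_ hT
      rw [← card_map f]
      apply card_le_card
      intro z hz
      rw [mem_map] at hz
      obtain ⟨y, hy, rfl⟩ := hz
      exact mem_preimage.mp hy
    obtain ⟨x, hx, hxT⟩ := hP.avoid i _ h1
    refine ⟨x.map f, mem_map.mpr ⟨x, hx, rfl⟩, ?_⟩
    rw [Finset.disjoint_left] at hxT ⊢
    intro z hz hzT
    rw [mem_map] at hz
    obtain ⟨y, hy, rfl⟩ := hz
    exact hxT hy (mem_preimage.mpr hzT)
  · intro i j hij x hx y hy
    rw [mem_map] at hx hy
    obtain ⟨x', hx', rfl⟩ := hx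
    obtain ⟨y', hy', rfl⟩ := hy
    simp only [RelEmbedding.coe_toEmbedding, mapEmbedding_apply]
    rw [← map_inter, card_map]
    exact hP.inter i j hij x' hx' y' hy'

lemma IsPack.comp {V ι κ : Type*} [DecidableEq V] {t w : ℕ}
    {P : ι → Finset (Finset V)} (hP : IsPack t w P) (f : κ ↪ ι) :
    IsPack t w (P ∘ f) := by
  constructor
  · intro i; exact hP.card_eq _
  · intro i; exact hP.avoid _
  · intro i j hij; exact hP.inter _ _ (fun h => hij (f.injective h))

lemma HasPack.of_types {V ι : Type*} [DecidableEq V] [Fintype V] [Fintype ι] {t w n b : ℕ}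
    (hV : Fintype.card V ≤ n) (hι : b ≤ Fintype.card ι)
    {P : ι → Finset (Finset V)} (hP : IsPack t w P) : HasPack t w n b := by
  have h1 : Fintype.card V ≤ Fintype.card (Fin n) := by simpa using hV
  have h2 : Fintype.card (Fin b) ≤ Fintype.card ι := by simpa using hι
  obtain ⟨f⟩ := Function.Embedding.nonempty_of_card_le h1
  obtain ⟨g⟩ := Function.Embedding.nonempty_of_card_le h2
  exact ⟨_, (hP.map f).comp g⟩

lemma HasPack.zero (t w n : ℕ) : HasPack t w n 0 :=
  ⟨fun i => i.elim0, ⟨fun i => i.elim0, fun i => i.elim0, fun i => i.elim0⟩⟩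

lemma HasPack.mono {t w n m b c : ℕ} (h : HasPack t w n b) (hnm : n ≤ m) (hcb : c ≤ b) :
    HasPack t w m c := by
  obtain ⟨P, hP⟩ := h
  exact HasPack.of_types (by simpa using hnm) (by simpa using hcb) hP

section TD

variable {N G s : ℕ}

/-- point type: `G` groups of size `N`, one group of size `s` -/
abbrev Pt (N G s : ℕ) := (Fin G × ZMod N) ⊕ Fin s

def idx : Pt N G s → ℕ
  | Sum.inl (g, _) => g.val + 1
  | Sum.inr _ => 0

def val : Pt N G s → ZMod N
  | Sum.inl (_, y) => y
  | Sum.inr z => (z.val : ZMod N)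

/-- block -/
def blk (N G s : ℕ) (β : ZMod N) (v : ℕ) : Finset (Pt N G s) :=
  (univ.image fun g : Fin G => Sum.inl (g, (v : ZMod N) + β * ((g.val + 1 : ℕ) : ZMod N))) ∪
    (if h : v < s then {Sum.inr ⟨v, h⟩} else ∅)

lemma mem_blk_inl {β : ZMod N} {v : ℕ} {g : Fin G} {y : ZMod N} :
    (Sum.inl (g, y) : Pt N G s) ∈ blk N G s β v ↔
      y = (v : ZMod N) + β * ((g.val + 1 : ℕ) : ZMod N) := by
  unfold blk
  rw [mem_union]
  constructor
  · rintro (h | h)
    · rw [mem_image] at h
      obtain ⟨g', -, h⟩ := h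
      rw [Sum.inl.injEq, Prod.mk.injEq] at h
      obtain ⟨rfl, rfl⟩ := h
      rfl
    · split_ifs at h <;> simp at h
  · rintro rfl
    exact Or.inl (mem_image.mpr ⟨g, mem_univ _, rfl⟩)

lemma mem_blk_inr {β : ZMod N} {v : ℕ} {z : Fin s} :
    (Sum.inr z : Pt N G s) ∈ blk N G s β v ↔ z.val = v := by
  unfold blk
  rw [mem_union]
  constructor
  · rintro (h | h)
    · rw [mem_image] at h
      obtain ⟨g', -, h⟩ := h
      simp at h
    · split_ifs at h with h'
      · rw [mem_singleton, Sum.inr.injEq] at h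
        rw [h]
      · simp at h
  · rintro rfl
    right
    rw [dif_pos z.isLt]
    simp

lemma val_of_mem {β : ZMod N} {v : ℕ} {p : Pt N G s} (hp : p ∈ blk N G s β v) :
    val p = (v : ZMod N) + β * (idx p : ZMod N) := by
  rcases p with ⟨g, y⟩ | z
  · rw [mem_blk_inl] at hp
    exact hp
  · rw [mem_blk_inr] at hp
    simp [val, idx, hp]

lemma eq_of_mem {β : ZMod N} {v : ℕ} {p q : Pt N G s} (hp : p ∈ blk N G s β v)
    (hq : q ∈ blk N G s β v) (h : idx p = idx q) : p = q := by
  rcases p with ⟨g, y⟩ | z <;> rcases q with ⟨g', y'⟩ | z'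
  · rw [mem_blk_inl] at hp hq
    have : g = g' := by
      apply Fin.ext
      simpa [idx] using h
    subst this
    rw [hp, hq]
  · simp [idx] at h
  · simp [idx] at h
  · rw [mem_blk_inr] at hp hq
    congr 1
    apply Fin.ext
    rw [hp, hq]

lemma idx_le (p : Pt N G s) : idx p ≤ G := by
  rcases p with ⟨g, y⟩ | z
  · have := g.isLt
    change g.val + 1 ≤ G
    omega
  · simp [idx]

lemma blk_inter {β β' : ZMod N} (hN : Nat.Coprime N (Nat.factorial G)) (hβ : β ≠ β') (v v' : ℕ) :
    (blk N G s β v ∩ blk N G s β' v').card ≤ 1 := by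
  rw [card_le_one]
  -- a symmetric claim with an order assumption
  have key : ∀ p q : Pt N G s, p ∈ blk N G s β v → p ∈ blk N G s β' v' →
      q ∈ blk N G s β v → q ∈ blk N G s β' v' → idx p < idx q → False := by
    intro p q hp hp' hq hq' hlt
    have e1 := val_of_mem hp
    have e2 := val_of_mem hp'
    have e3 := val_of_mem hq
    have e4 := val_of_mem hq'
    have e5 : (β - β') * (idx q : ZMod N) = (β - β') * (idx p : ZMod N) := by
      linear_combination e1 - e2 - e3 + e4
    obtain ⟨d, hd⟩ := Nat.exists_eq_add_of_lt hlt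
    have hd' : idx q = idx p + (d + 1) := by omega
    have e6 : (β - β') * ((d + 1 : ℕ) : ZMod N) = 0 := by
      rw [hd'] at e5
      push_cast at e5 ⊢
      linear_combination e5
    have hdG : d + 1 ≤ G := by have := idx_le q; omega
    have hcop : Nat.Coprime (d + 1) N :=
      (Nat.Coprime.coprime_dvd_right (Nat.dvd_factorial (by omega) hdG) hN).symm
    have hu : IsUnit ((d + 1 : ℕ) : ZMod N) := (ZMod.isUnit_iff_coprime _ _).mpr hcop
    have e7 : β - β' = 0 := by
      have := hu.mul_left_eq_zero.mp e6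
      exact this
    exact hβ (sub_eq_zero.mp e7)
  intro p hp q hq
  rw [mem_inter] at hp hq
  rcases lt_trichotomy (idx p) (idx q) with h | h | h
  · exact (key p q hp.1 hp.2 hq.1 hq.2 h).elim
  · exact eq_of_mem hp.1 hq.1 h
  · exact (key q p hq.1 hq.2 hp.1 hp.2 h).elim

lemma blk_disjoint {β : ZMod N} {v v' : ℕ} (hv : v < N) (hv' : v' < N) (h : v ≠ v') :
    Disjoint (blk N G s β v) (blk N G s β v') := by
  rw [Finset.disjoint_left]
  intro p hp hp'
  have e1 := val_of_mem hp
  have e2 := val_of_mem hp'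
  have e3 : (v : ZMod N) = (v' : ZMod N) := by linear_combination e2 - e1
  rw [ZMod.natCast_eq_natCast_iff'] at e3
  rw [Nat.mod_eq_of_lt hv, Nat.mod_eq_of_lt hv'] at e3
  exact h e3

lemma card_blk_ge (β : ZMod N) (v : ℕ) : G ≤ (blk N G s β v).card := by
  unfold blk
  calc G = (univ : Finset (Fin G)).card := by simp
    _ = (univ.image fun g : Fin G =>
          (Sum.inl (g, (v : ZMod N) + β * ((g.val + 1 : ℕ) : ZMod N)) : Pt N G s)).card := by
        rw [card_image_of_injective]
        intro g g' h
        rw [Sum.inl.injEq, Prod.mk.injEq] at h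
        exact h.1
    _ ≤ _ := card_le_card subset_union_left

lemma card_blk_ge' (β : ZMod N) {v : ℕ} (hv : v < s) : G + 1 ≤ (blk N G s β v).card := by
  unfold blk
  rw [dif_pos hv, card_union_of_disjoint]
  · rw [card_image_of_injective]
    · simp
    · intro g g' h
      rw [Sum.inl.injEq, Prod.mk.injEq] at h
      exact h.1
  · rw [Finset.disjoint_left]
    intro p hp hp'
    rw [mem_singleton] at hp'
    rw [mem_image] at hp
    obtain ⟨g, -, hg⟩ := hp
    rw [hp'] at hg
    simp at hg

end TD

/-- **Recursive construction.** -/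
theorem HasPack.step {t w a c N u b₁ b₂ : ℕ} (hw : 3 ≤ w)
    (hcop : Nat.Coprime N (Nat.factorial (2 * w - 3)))
    (ht : t + 1 = a * (w - 2) + c * (w - 1)) (hN : 0 < N) (hu : (a + c) * u ≤ N)
    (h₁ : HasPack t w N b₁) (h₂ : HasPack t w (c * u) b₂) :
    HasPack t w ((2 * w - 3) * N + c * u) (N * u + ((2 * w - 3) * b₁ + b₂)) := by
  classical
  have : NeZero N := ⟨hN.ne'⟩
  set G := 2 * w - 3 with hG
  set s := c * u with hs
  obtain ⟨P₁, hP₁⟩ := h₁
  obtain ⟨P₂, hP₂⟩ := h₂
  -- transport the group packings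
  let e₁ : ∀ g : Fin G, Fin N ↪ Pt N G s := fun g =>
    ⟨fun z => Sum.inl (g, (z.val : ZMod N)), by
      intro z z' h
      simp only [Sum.inl.injEq, Prod.mk.injEq, true_and] at h
      rw [ZMod.natCast_eq_natCast_iff', Nat.mod_eq_of_lt z.isLt, Nat.mod_eq_of_lt z'.isLt] at h
      exact Fin.ext h⟩
  let e₂ : Fin s ↪ Pt N G s := ⟨Sum.inr, Sum.inr_injective⟩
  let L : Fin u → Finset ℕ := fun k =>
    Ico (c * k.val) (c * k.val + c) ∪ Ico (s + a * k.val) (s + a * k.val + a)
  have hLN : ∀ k : Fin u, ∀ v ∈ L k, v < N := by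
    intro k v hv
    have hk := k.isLt
    have h1 : c * (k.val + 1) ≤ c * u := Nat.mul_le_mul_left _ hk
    have h2 : a * (k.val + 1) ≤ a * u := Nat.mul_le_mul_left _ hk
    have h3 : (a + c) * u = a * u + c * u := by ring
    simp only [L, mem_union, mem_Ico] at hv
    rw [mul_add, mul_one] at h1 h2
    omega
  have hLdisj : ∀ k k' : Fin u, k ≠ k' → ∀ v ∈ L k, ∀ v' ∈ L k', v ≠ v' := by
    intro k k' hkk' v hv v' hv' hvv
    subst hvv
    have hk := k.isLt
    have hk' := k'.isLt
    have h1 : c * (k.val + 1) ≤ c * u := Nat.mul_le_mul_left _ hk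
    have h1' : c * (k'.val + 1) ≤ c * u := Nat.mul_le_mul_left _ hk'
    simp only [L, mem_union, mem_Ico] at hv hv'
    have hne : k.val ≠ k'.val := fun h => hkk' (Fin.ext h)
    rw [mul_add, mul_one] at h1 h1'
    rcases lt_or_gt_of_ne hne with h | h
    · have h5 : c * (k.val + 1) ≤ c * k'.val := Nat.mul_le_mul_left _ h
      have h6 : a * (k.val + 1) ≤ a * k'.val := Nat.mul_le_mul_left _ h
      rw [mul_add, mul_one] at h5 h6
      omega
    · have h5 : c * (k'.val + 1) ≤ c * k.val := Nat.mul_le_mul_left _ h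
      have h6 : a * (k'.val + 1) ≤ a * k.val := Nat.mul_le_mul_left _ h
      rw [mul_add, mul_one] at h5 h6
      omega
  let Q : (ZMod N × Fin u) ⊕ ((Fin G × Fin b₁) ⊕ Fin b₂) → Finset (Finset (Pt N G s))
    | Sum.inl (β, k) => (L k).biUnion fun v => (blk N G s β v).powersetCard w
    | Sum.inr (Sum.inl (g, i)) => (P₁ i).map (mapEmbedding (e₁ g)).toEmbedding
    | Sum.inr (Sum.inr i) => (P₂ i).map (mapEmbedding e₂).toEmbedding
  have hidx₁ : ∀ g i x, x ∈ Q (Sum.inr (Sum.inl (g, i))) → ∀ p ∈ x, idx p = g.val + 1 := by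
    intro g i x hx p hp
    simp only [Q, mem_map, RelEmbedding.coe_toEmbedding, mapEmbedding_apply] at hx
    obtain ⟨y, -, rfl⟩ := hx
    rw [mem_map] at hp
    obtain ⟨z, -, rfl⟩ := hp
    rfl
  have hidx₂ : ∀ i x, x ∈ Q (Sum.inr (Sum.inr i)) → ∀ p ∈ x, idx p = 0 := by
    intro i x hx p hp
    simp only [Q, mem_map, RelEmbedding.coe_toEmbedding, mapEmbedding_apply] at hx
    obtain ⟨y, -, rfl⟩ := hx
    rw [mem_map] at hp
    obtain ⟨z, -, rfl⟩ := hp
    rfl
  have hblk : ∀ β k x, x ∈ Q (Sum.inl (β, k)) → ∃ v ∈ L k, x ⊆ blk N G s β v := by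
    intro β k x hx
    simp only [Q, mem_biUnion, mem_powersetCard] at hx
    obtain ⟨v, hv, hx, -⟩ := hx
    exact ⟨v, hv, hx⟩
  -- a block word meets a set of constant index in at most one point
  have hone : ∀ β k x, x ∈ Q (Sum.inl (β, k)) → ∀ (y : Finset (Pt N G s)) (m : ℕ),
      (∀ p ∈ y, idx p = m) → (x ∩ y).card ≤ 1 := by
    intro β k x hx y m hy
    obtain ⟨v, -, hxv⟩ := hblk β k x hx
    rw [card_le_one]
    intro p hp q hq
    rw [mem_inter] at hp hq
    exact eq_of_mem (hxv hp.1) (hxv hq.1) ((hy p hp.2).trans (hy q hq.2).symm)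
  have hzero : ∀ (x y : Finset (Pt N G s)) (m m' : ℕ), m ≠ m' → (∀ p ∈ x, idx p = m) →
      (∀ p ∈ y, idx p = m') → (x ∩ y).card ≤ 1 := by
    intro x y m m' hmm hx hy
    have : x ∩ y = ∅ := by
      rw [eq_empty_iff_forall_notMem]
      intro p hp
      rw [mem_inter] at hp
      exact hmm ((hx p hp.1).symm.trans (hy p hp.2))
    rw [this]
    simp
  have hQ : IsPack t w Q := by
    constructor
    · rintro (⟨β, k⟩ | ⟨g, i⟩ | i) x hx
      · simp only [Q, mem_biUnion, mem_powersetCard] at hx
        obtain ⟨v, -, -, hx⟩ := hx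
        exact hx
      · exact (hP₁.map (e₁ g)).card_eq i x hx
      · exact (hP₂.map e₂).card_eq i x hx
    · rintro (⟨β, k⟩ | ⟨g, i⟩ | i) T hT
      · by_contra hcon
        push Not at hcon
        -- every block loses many points
        have hloss : ∀ v ∈ L k, (blk N G s β v).card + 1 ≤ (T ∩ blk N G s β v).card + w := by
          intro v hv
          by_contra hlt
          push Not at hlt
          have h1 : w ≤ (blk N G s β v \ T).card := by
            have h2 : (blk N G s β v \ T).card + (blk N G s β v ∩ T).card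
              = (blk N G s β v).card := card_sdiff_add_card_inter _ _
            rw [inter_comm] at h2
            omega
          obtain ⟨x, hx, hxw⟩ := exists_subset_card_eq h1
          apply hcon x
          · simp only [Q, mem_biUnion, mem_powersetCard]
            exact ⟨v, hv, hx.trans sdiff_subset, hxw⟩
          · rw [Finset.disjoint_left]
            intro p hp hpT
            exact (mem_sdiff.mp (hx hp)).2 hpT
        have hk := k.isLt
        have h1 : c * (k.val + 1) ≤ c * u := Nat.mul_le_mul_left _ hk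
        rw [mul_add, mul_one] at h1
        have hdj : Disjoint (Ico (c * k.val) (c * k.val + c))
            (Ico (s + a * k.val) (s + a * k.val + a)) := by
          rw [Finset.disjoint_left]
          intro v hv hv'
          rw [mem_Ico] at hv hv'
          omega
        have hsum : ∑ v ∈ L k, (T ∩ blk N G s β v).card ≤ T.card := by
          rw [← card_biUnion]
          · apply card_le_card
            intro p hp
            rw [mem_biUnion] at hp
            obtain ⟨v, -, hp⟩ := hp
            exact (mem_inter.mp hp).1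
          · intro v hv v' hv' hne
            exact (blk_disjoint (hLN k v hv) (hLN k v' hv') hne).mono
              inter_subset_right inter_subset_right
        have hlow : a * (w - 2) + c * (w - 1) ≤ ∑ v ∈ L k, (T ∩ blk N G s β v).card := by
          simp only [L]
          rw [sum_union hdj]
          have hA : c * (w - 1) ≤ ∑ v ∈ Ico (c * k.val) (c * k.val + c),
              (T ∩ blk N G s β v).card := by
            calc c * (w - 1) = ∑ v ∈ Ico (c * k.val) (c * k.val + c), (w - 1) := by
                  rw [sum_const, Nat.card_Ico, smul_eq_mul]; congr 1; omega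
              _ ≤ _ := by
                apply sum_le_sum
                intro v hv
                have h2 := hloss v (by simp only [L, mem_union]; exact Or.inl hv)
                have h3 : v < s := by
                  rw [mem_Ico] at hv; omega
                have h4 := card_blk_ge' (N := N) (G := G) β h3
                omega
          have hB : a * (w - 2) ≤ ∑ v ∈ Ico (s + a * k.val) (s + a * k.val + a),
              (T ∩ blk N G s β v).card := by
            calc a * (w - 2) = ∑ v ∈ Ico (s + a * k.val) (s + a * k.val + a), (w - 2) := by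
                  rw [sum_const, Nat.card_Ico, smul_eq_mul]; congr 1; omega
              _ ≤ _ := by
                apply sum_le_sum
                intro v hv
                have h2 := hloss v (by simp only [L, mem_union]; exact Or.inr hv)
                have h4 := card_blk_ge (N := N) (G := G) (s := s) β v
                omega
          omega
        omega
      · exact (hP₁.map (e₁ g)).avoid i T hT
      · exact (hP₂.map e₂).avoid i T hT
    · rintro (⟨β, k⟩ | ⟨g, i⟩ | i) (⟨β', k'⟩ | ⟨g', i'⟩ | i') hne x hx y hy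
      · obtain ⟨v, hv, hxv⟩ := hblk β k x hx
        obtain ⟨v', hv', hyv⟩ := hblk β' k' y hy
        refine le_trans (card_le_card (inter_subset_inter hxv hyv)) ?_
        by_cases hβ : β = β'
        · subst hβ
          have hkk : k ≠ k' := fun h => hne (by rw [h])
          have h1 := hLdisj k k' hkk v hv v' hv'
          have h2 := blk_disjoint (N := N) (G := G) (s := s) (β := β) (hLN k v hv)
            (hLN k' v' hv') h1
          rw [disjoint_iff_inter_eq_empty.mp h2]
          simp
        · exact blk_inter hcop hβ v v'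
      · exact hone β k x hx y _ (hidx₁ g' i' y hy)
      · exact hone β k x hx y _ (hidx₂ i' y hy)
      · rw [inter_comm]; exact hone β' k' y hy x _ (hidx₁ g i x hx)
      · by_cases hg : g = g'
        · subst hg
          have hii : i ≠ i' := fun h => hne (by rw [h])
          exact (hP₁.map (e₁ g)).inter i i' hii x hx y hy
        · refine hzero x y _ _ ?_ (hidx₁ g i x hx) (hidx₁ g' i' y hy)
          intro h
          exact hg (Fin.ext (by omega))
      · exact hzero x y _ _ (by omega) (hidx₁ g i x hx) (hidx₂ i' y hy)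
      · rw [inter_comm]; exact hone β' k' y hy x _ (hidx₂ i x hx)
      · exact hzero x y _ _ (by omega) (hidx₂ i x hx) (hidx₁ g' i' y hy)
      · have hii : i ≠ i' := fun h => hne (by rw [h])
        exact (hP₂.map e₂).inter i i' hii x hx y hy
  refine HasPack.of_types ?_ ?_ hQ
  · simp [Pt, ZMod.card]
  · simp [ZMod.card]

/-- from a packing to an LPECC code -/
theorem HasPack.toLPECC {t w n b : ℕ} (hw : 4 ≤ w) (h : HasPack t w n b) :
    ∃ P : Fin b → Finset (Fin n → ZMod 2), IsLPECC n t w (w - 2) b P := by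
  classical
  obtain ⟨P, hP⟩ := h
  let f : Finset (Fin n) → (Fin n → ZMod 2) := fun x k => if k ∈ x then 1 else 0
  have hspt : ∀ x, spt (f x) = x := by
    intro x
    ext k
    rw [mem_spt]
    simp [f]
  have hnorm : ∀ x, hammingNorm (f x) = x.card := by
    intro x; rw [← card_spt, hspt]
  have hdist : ∀ i j, i ≠ j → ∀ x ∈ P i, ∀ y ∈ P j,
      2 * (w - 2) + 1 ≤ hammingDist (f x) (f y) := by
    intro i j hij x hx y hy
    have h1 := norm_add_norm (f x) (f y)
    rw [hnorm, hnorm, hspt, hspt, hP.card_eq i x hx, hP.card_eq j y hy] at h1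
    have h2 := hP.inter i j hij x hx y hy
    omega
  refine ⟨fun i => (P i).image f, ?_, ?_, ?_, ?_, ?_⟩
  · intro i
    obtain ⟨x, hx, -⟩ := hP.avoid i ∅ (by simp)
    exact ⟨f x, mem_image_of_mem f hx⟩
  · intro i j hij
    rw [Finset.disjoint_left]
    intro z hz hz'
    rw [mem_image] at hz hz'
    obtain ⟨x, hx, rfl⟩ := hz
    obtain ⟨y, hy, hxy⟩ := hz'
    have := hdist i j hij x hx y hy
    rw [hxy] at this
    simp at this
  · intro T hT i
    obtain ⟨x, hx, hxT⟩ := hP.avoid i T hT.le
    refine ⟨f x, mem_image_of_mem f hx, ?_⟩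
    intro k hk
    rw [Finset.disjoint_right] at hxT
    simp [f, hxT hk]
  · intro i z hz
    rw [mem_image] at hz
    obtain ⟨x, hx, rfl⟩ := hz
    rw [hnorm, hP.card_eq i x hx]
  · intro i j hij z hz z' hz'
    rw [mem_image] at hz hz'
    obtain ⟨x, hx, rfl⟩ := hz
    obtain ⟨y, hy, rfl⟩ := hz'
    exact hdist i j hij x hx y hy

end Pool.Agent.Work.MP_00ae1c_co
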