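import Mathlib
import Pool.Agent.Work.MP_00ae1c_co.Defs
import Pool.Agent.Work.MP_00ae1c_co.Upper
import Pool.Agent.Work.MP_00ae1c_co.Lower

namespace Pool.Agent.Work.MP_00ae1c_co

open Finset Filter Topology

lemma upper_pack {t w n b : ℕ} (hw : 4 ≤ w) (h : HasPack t w n b) :
    (2 * w - 3) * (t + 1) * b ≤ n.choose 2 + (2 * w - 3) * (t + 1) * (n + 1) := by
  rcases le_or_gt t n with hn | hn
  · obtain ⟨P, hP⟩ := h.toLPECC hw
    exact upper_bound hw hn hP
  · have hb : b = 0 := by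
      obtain ⟨P, hP⟩ := h
      by_contra hb
      obtain ⟨x, hx, hxT⟩ := hP.avoid ⟨0, Nat.pos_of_ne_zero hb⟩ univ (by simpa using hn.le)
      have h1 := hP.card_eq _ x hx
      have h2 : x = ∅ := by
        have := hxT.mono_right (subset_univ x)
        simpa using this
      rw [h2] at h1
      simp at h1
      omega
    rw [hb]
    simp

lemma bdd_pack {t w n : ℕ} (hw : 4 ≤ w) : BddAbove {b | HasPack t w n b} := by
  refine ⟨n.choose 2 + (2 * w - 3) * (t + 1) * (n + 1), ?_⟩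
  intro b hb
  have h1 := upper_pack hw hb
  have h2 : 1 ≤ (2 * w - 3) * (t + 1) := Nat.mul_pos (by omega) (by omega)
  have h3 : 1 * b ≤ (2 * w - 3) * (t + 1) * b := Nat.mul_le_mul_right _ h2
  omega

noncomputable def packMax (t w n : ℕ) : ℕ := sSup {b | HasPack t w n b}

lemma packMax_spec {t w : ℕ} (hw : 4 ≤ w) (n : ℕ) : HasPack t w n (packMax t w n) :=
  Nat.sSup_mem ⟨0, HasPack.zero t w n⟩ (bdd_pack hw)

lemma le_packMax {t w n b : ℕ} (hw : 4 ≤ w) (h : HasPack t w n b) : b ≤ packMax t w n :=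
  le_csSup (bdd_pack hw) h

lemma packMax_mono {t w n m : ℕ} (hw : 4 ≤ w) (h : n ≤ m) : packMax t w n ≤ packMax t w m :=
  le_packMax hw ((packMax_spec hw n).mono h le_rfl)

lemma bdd_maxSize {t w n : ℕ} (hw : 4 ≤ w) (hn : t ≤ n) :
    BddAbove {b : ℕ | ∃ P : Fin b → Finset (Fin n → ZMod 2), IsLPECC n t w (w - 2) b P} := by
  refine ⟨n.choose 2 + (2 * w - 3) * (t + 1) * (n + 1), ?_⟩
  rintro b ⟨P, hP⟩
  have h1 := upper_bound hw hn hP
  have h2 : 1 ≤ (2 * w - 3) * (t + 1) := Nat.mul_pos (by omega) (by omega)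
  have h3 : 1 * b ≤ (2 * w - 3) * (t + 1) * b := Nat.mul_le_mul_right _ h2
  omega

lemma packMax_le_maxSize {t w n : ℕ} (hw : 4 ≤ w) (hn : t ≤ n) :
    packMax t w n ≤ maxSize n t w (w - 2) :=
  le_csSup (bdd_maxSize hw hn) ((packMax_spec hw n).toLPECC hw)

lemma maxSize_le {t w n : ℕ} (hw : 4 ≤ w) (hn : t ≤ n) :
    (2 * w - 3) * (t + 1) * maxSize n t w (w - 2) ≤
      n.choose 2 + (2 * w - 3) * (t + 1) * (n + 1) := by
  have hne : {b : ℕ | ∃ P : Fin b → Finset (Fin n → ZMod 2), IsLPECC n t w (w - 2) b P}.Nonempty :=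
    ⟨0, (HasPack.zero t w n).toLPECC hw⟩
  obtain ⟨P, hP⟩ := Nat.sSup_mem hne (bdd_maxSize hw hn)
  exact upper_bound hw hn hP

lemma tendsto_div_of_bdd (f : ℕ → ℕ) (α C : ℝ) (h : ∀ᶠ n : ℕ in atTop, |(f n : ℝ) - α * n| ≤ C) :
    Tendsto (fun n : ℕ => (f n : ℝ) / n) atTop (𝓝 α) := by
  rw [tendsto_iff_norm_sub_tendsto_zero]
  have h1 : Tendsto (fun n : ℕ => C / (n : ℝ)) atTop (𝓝 0) :=
    tendsto_const_div_atTop_nhds_zero_nat C
  refine squeeze_zero' (Eventually.of_forall fun n => norm_nonneg _) ?_ h1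
  filter_upwards [h, eventually_gt_atTop 0] with n hn hn0
  have hn' : (0 : ℝ) < n := by exact_mod_cast hn0
  have e : (f n : ℝ) / n - α = ((f n : ℝ) - α * n) / n := by field_simp
  rw [e, Real.norm_eq_abs, abs_div, abs_of_pos hn']
  exact div_le_div_of_nonneg_right hn hn'.le

/-- parameters of the recursion -/
def Npar (w M Q n : ℕ) : ℕ :=
  Nat.factorial (2 * w - 3) * ((M * n / Q - 1) / Nat.factorial (2 * w - 3)) + 1

lemma Npar_coprime (w M Q n : ℕ) : Nat.Coprime (Npar w M Q n) (Nat.factorial (2 * w - 3)) := by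
  unfold Npar
  rw [Nat.coprime_mul_left_add_left]
  exact Nat.coprime_one_left _

lemma Npar_le {w M Q n : ℕ} (h : 1 ≤ M * n / Q) : Npar w M Q n ≤ M * n / Q := by
  unfold Npar
  have := Nat.mul_div_le (M * n / Q - 1) (Nat.factorial (2 * w - 3))
  omega

lemma le_Npar (w M Q n : ℕ) : M * n / Q ≤ Npar w M Q n + Nat.factorial (2 * w - 3) := by
  unfold Npar
  have h := Nat.div_add_mod (M * n / Q - 1) (Nat.factorial (2 * w - 3))
  have h2 := Nat.mod_lt (M * n / Q - 1) (Nat.factorial_pos (2 * w - 3))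
  omega

lemma step_packMax {t w a c n : ℕ} (hw : 4 ≤ w) (ht : t + 1 = a * (w - 2) + c * (w - 1))
    (hM : 1 ≤ a + c) (hn : 1 ≤ (a + c) * n / ((2 * w - 3) * (a + c) + c)) :
    Npar w (a + c) ((2 * w - 3) * (a + c) + c) n *
      (Npar w (a + c) ((2 * w - 3) * (a + c) + c) n / (a + c)) +
      ((2 * w - 3) * packMax t w (Npar w (a + c) ((2 * w - 3) * (a + c) + c) n) +
        packMax t w (c * (Npar w (a + c) ((2 * w - 3) * (a + c) + c) n / (a + c)))) ≤
      packMax t w n := by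
  set M := a + c with hMdef
  set Q := (2 * w - 3) * M + c with hQ
  set N := Npar w M Q n with hN
  have hN0 : 0 < N := by rw [hN]; unfold Npar; omega
  have hu : (a + c) * (N / M) ≤ N := by rw [← hMdef]; exact Nat.mul_div_le N M
  have h1 := HasPack.step (w := w) (by omega) (Npar_coprime w M Q n) ht hN0 hu
    (packMax_spec hw N) (packMax_spec hw (c * (N / M)))
  have hNle : N ≤ M * n / Q := Npar_le hn
  have h2 : (2 * w - 3) * N + c * (N / M) ≤ n := by
    have h3 : Q * N ≤ M * n := by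
      calc Q * N ≤ Q * (M * n / Q) := Nat.mul_le_mul_left _ hNle
        _ ≤ M * n := Nat.mul_div_le _ _
    have h4 : M * ((2 * w - 3) * N + c * (N / M)) ≤ M * n := by
      calc M * ((2 * w - 3) * N + c * (N / M))
          = (2 * w - 3) * M * N + c * (M * (N / M)) := by ring
        _ ≤ (2 * w - 3) * M * N + c * N := by
            have h5 := Nat.mul_div_le N M
            gcongr
        _ = Q * N := by rw [hQ]; ring
        _ ≤ _ := h3
    exact Nat.le_of_mul_le_mul_left h4 (by omega)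
  exact (le_packMax hw h1).trans (packMax_mono hw h2)

lemma tendsto_Npar {w M Q : ℕ} (hQ : 1 ≤ Q) (hM : 1 ≤ M) :
    Tendsto (fun n : ℕ => (Npar w M Q n : ℝ) / n) atTop (𝓝 ((M : ℝ) / Q)) := by
  apply tendsto_div_of_bdd (C := (Nat.factorial (2 * w - 3) : ℝ) + 1)
  filter_upwards [eventually_ge_atTop Q] with n hn
  have h0 : 1 ≤ M * n / Q := by
    rw [Nat.one_le_div_iff (by omega)]
    nlinarith
  have h1 := Npar_le (w := w) h0
  have h2 := le_Npar w M Q n
  have hQ' : (0 : ℝ) < Q := by exact_mod_cast hQ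
  have h3 : ((M * n / Q : ℕ) : ℝ) ≤ (M : ℝ) * n / Q := by
    have := @Nat.cast_div_le ℝ _ _ _ (M * n) Q
    simpa using this
  have h4 : (M : ℝ) * n / Q < ((M * n / Q : ℕ) : ℝ) + 1 := by
    rw [div_lt_iff₀ hQ']
    have : M * n < (M * n / Q + 1) * Q := by
      have := Nat.lt_mul_div_succ (M * n) (show 0 < Q by omega)
      linarith [this]
    exact_mod_cast this
  have h1' : (Npar w M Q n : ℝ) ≤ ((M * n / Q : ℕ) : ℝ) := by exact_mod_cast h1
  have h2' : ((M * n / Q : ℕ) : ℝ) ≤ (Npar w M Q n : ℝ) + (Nat.factorial (2 * w - 3) : ℝ) := by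
    exact_mod_cast h2
  have e : (M : ℝ) / Q * n = (M : ℝ) * n / Q := by ring
  have hf : (0 : ℝ) ≤ (Nat.factorial (2 * w - 3) : ℝ) := by positivity
  rw [e, abs_le]
  constructor <;> linarith

lemma tendsto_Npar_div {w M Q : ℕ} (hQ : 1 ≤ Q) (hM : 1 ≤ M) :
    Tendsto (fun n : ℕ => ((Npar w M Q n / M : ℕ) : ℝ) / n) atTop (𝓝 (1 / (Q : ℝ))) := by
  have hM' : (0 : ℝ) < M := by exact_mod_cast hM
  have h1 := tendsto_Npar (w := w) hQ hM
  have h2 : Tendsto (fun n : ℕ => (Npar w M Q n : ℝ) / n / M) atTop (𝓝 ((M : ℝ) / Q / M)) :=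
    h1.div_const _
  have e : (M : ℝ) / Q / M = 1 / Q := by field_simp
  rw [e] at h2
  have h3 : Tendsto (fun n : ℕ => (1 : ℝ) / (n : ℝ)) atTop (𝓝 0) :=
    tendsto_const_div_atTop_nhds_zero_nat 1
  have h4 := h2.sub h3
  rw [sub_zero] at h4
  refine tendsto_of_tendsto_of_tendsto_of_le_of_le' h4 h2 ?_ ?_
  · filter_upwards [eventually_gt_atTop 0] with n hn
    have hn' : (0 : ℝ) < n := by exact_mod_cast hn
    have h5 : (Npar w M Q n : ℝ) / M < ((Npar w M Q n / M : ℕ) : ℝ) + 1 := by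
      rw [div_lt_iff₀ hM']
      have : Npar w M Q n < (Npar w M Q n / M + 1) * M := by
        have := Nat.lt_mul_div_succ (Npar w M Q n) (show 0 < M by omega)
        linarith [this]
      exact_mod_cast this
    have e2 : (Npar w M Q n : ℝ) / n / M - 1 / n = ((Npar w M Q n : ℝ) / M - 1) / n := by
      field_simp
    rw [e2]
    exact div_le_div_of_nonneg_right (by linarith) hn'.le
  · filter_upwards [eventually_gt_atTop 0] with n hn
    have hn' : (0 : ℝ) < n := by exact_mod_cast hn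
    have h5 : ((Npar w M Q n / M : ℕ) : ℝ) ≤ (Npar w M Q n : ℝ) / M := Nat.cast_div_le
    have e2 : (Npar w M Q n : ℝ) / n / M = ((Npar w M Q n : ℝ) / M) / n := by
      field_simp
    rw [e2]
    exact div_le_div_of_nonneg_right h5 hn'.le

lemma tendsto_nat_of_div {f : ℕ → ℕ} {α : ℝ} (hα : 0 < α)
    (h : Tendsto (fun n : ℕ => (f n : ℝ) / n) atTop (𝓝 α)) : Tendsto f atTop atTop := by
  have h1 : Tendsto (fun n : ℕ => ((f n : ℝ) / n) * n) atTop atTop :=
    h.pos_mul_atTop hα tendsto_natCast_atTop_atTop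
  have h2 : Tendsto (fun n : ℕ => (f n : ℝ)) atTop atTop := by
    refine h1.congr' ?_
    filter_upwards [eventually_gt_atTop 0] with n hn
    have hn' : (n : ℝ) ≠ 0 := by positivity
    field_simp
  exact tendsto_natCast_atTop_iff.mp h2

/-- one improvement step for the density -/
lemma improve {t w a c : ℕ} (hw : 4 ≤ w) (ht : t + 1 = a * (w - 2) + c * (w - 1))
    (hM : 1 ≤ a + c) {ℓ : ℝ}
    (h : ∀ᶠ n : ℕ in atTop, ℓ * (n : ℝ) ^ 2 ≤ packMax t w n) {ε : ℝ} (hε : 0 < ε) :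
    ∀ᶠ n : ℕ in atTop,
      ((((a + c : ℕ) : ℝ) + ℓ * (((2 * w - 3 : ℕ) : ℝ) * ((a + c : ℕ) : ℝ) ^ 2 + (c : ℝ) ^ 2)) /
        (((2 * w - 3) * (a + c) + c : ℕ) : ℝ) ^ 2 - ε) * (n : ℝ) ^ 2 ≤ packMax t w n := by
  set M := a + c with hMdef
  set Q := (2 * w - 3) * M + c with hQ
  have hQ1 : 1 ≤ Q := by
    rw [hQ]
    have : 1 * 1 ≤ (2 * w - 3) * M := Nat.mul_le_mul (by omega) hM
    omega
  have hQ' : (0 : ℝ) < Q := by exact_mod_cast hQ1
  have hM' : (0 : ℝ) < M := by exact_mod_cast hM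
  set G := 2 * w - 3 with hG
  have t1 := tendsto_Npar (w := w) hQ1 hM
  have t2 := tendsto_Npar_div (w := w) hQ1 hM
  have t1' : Tendsto (Npar w M Q) atTop atTop := tendsto_nat_of_div (by positivity) t1
  -- the limit of the right-hand side
  have t3 : Tendsto (fun n : ℕ => ((Npar w M Q n : ℝ) / n) * (((Npar w M Q n / M : ℕ) : ℝ) / n)
      + ((G : ℝ) * (ℓ * ((Npar w M Q n : ℝ) / n) ^ 2)
      + ℓ * (c : ℝ) ^ 2 * (((Npar w M Q n / M : ℕ) : ℝ) / n) ^ 2)) atTop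
      (𝓝 (((M : ℝ) / Q) * (1 / Q) + ((G : ℝ) * (ℓ * ((M : ℝ) / Q) ^ 2)
        + ℓ * (c : ℝ) ^ 2 * (1 / (Q : ℝ)) ^ 2))) :=
    (t1.mul t2).add (((t1.pow 2).const_mul ℓ).const_mul _ |>.add ((t2.pow 2).const_mul _))
  have e1 : ((M : ℝ) / Q) * (1 / Q) + ((G : ℝ) * (ℓ * ((M : ℝ) / Q) ^ 2)
        + ℓ * (c : ℝ) ^ 2 * (1 / (Q : ℝ)) ^ 2) =
      ((M : ℝ) + ℓ * ((G : ℝ) * (M : ℝ) ^ 2 + (c : ℝ) ^ 2)) / (Q : ℝ) ^ 2 := by
    field_simp
  rw [e1] at t3
  have t4 := t3.eventually_const_le (u := ((M : ℝ) + ℓ * ((G : ℝ) * (M : ℝ) ^ 2 + (c : ℝ) ^ 2)) /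
    (Q : ℝ) ^ 2 - ε) (by linarith)
  -- the two inner packings
  have t5 : ∀ᶠ n : ℕ in atTop, ℓ * ((Npar w M Q n : ℕ) : ℝ) ^ 2 ≤ packMax t w (Npar w M Q n) :=
    t1'.eventually h
  have t6 : ∀ᶠ n : ℕ in atTop, ℓ * ((c * (Npar w M Q n / M) : ℕ) : ℝ) ^ 2 ≤
      packMax t w (c * (Npar w M Q n / M)) := by
    rcases Nat.eq_zero_or_pos c with hc | hc
    · rw [hc]
      simp
    · have t7 : Tendsto (fun n => c * (Npar w M Q n / M)) atTop atTop := by
        have t8 : Tendsto (fun n => Npar w M Q n / M) atTop atTop :=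
          tendsto_nat_of_div (f := fun n => Npar w M Q n / M) (by positivity) t2
        exact tendsto_atTop_mono (fun n => Nat.le_mul_of_pos_left _ hc) t8
      exact t7.eventually h
  filter_upwards [t4, t5, t6, eventually_ge_atTop Q] with n h4 h5 h6 h7
  have h0 : 1 ≤ M * n / Q := by
    rw [Nat.one_le_div_iff (by omega)]
    nlinarith
  have hst := step_packMax (t := t) (n := n) hw ht hM h0
  have hn' : (0 : ℝ) < n := by
    have : 0 < n := by omega
    exact_mod_cast this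
  have hst' : ((Npar w M Q n : ℝ)) * ((Npar w M Q n / M : ℕ) : ℝ) +
      ((G : ℝ) * (packMax t w (Npar w M Q n) : ℝ) +
        (packMax t w (c * (Npar w M Q n / M)) : ℝ)) ≤ (packMax t w n : ℝ) := by
    exact_mod_cast hst
  refine le_trans ?_ hst'
  have h8 := mul_le_mul_of_nonneg_right h4 (sq_nonneg (n : ℝ))
  refine h8.trans ?_
  have e2 : (((Npar w M Q n : ℝ) / n) * (((Npar w M Q n / M : ℕ) : ℝ) / n)
      + ((G : ℝ) * (ℓ * ((Npar w M Q n : ℝ) / n) ^ 2)
      + ℓ * (c : ℝ) ^ 2 * (((Npar w M Q n / M : ℕ) : ℝ) / n) ^ 2)) * (n : ℝ) ^ 2 =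
      (Npar w M Q n : ℝ) * ((Npar w M Q n / M : ℕ) : ℝ) +
      ((G : ℝ) * (ℓ * (Npar w M Q n : ℝ) ^ 2) +
        ℓ * ((c * (Npar w M Q n / M) : ℕ) : ℝ) ^ 2) := by
    push_cast
    field_simp
  rw [e2]
  have hG0 : (0 : ℝ) ≤ G := by positivity
  have h9 := mul_le_mul_of_nonneg_left h5 hG0
  linarith

/-- **Asymptotic lower bound.** -/
theorem lower_density {t w a c : ℕ} (hw : 4 ≤ w) (ht : t + 1 = a * (w - 2) + c * (w - 1))
    {ℓ : ℝ} (hℓ : ℓ < 1 / ((4 * (w : ℝ) - 6) * (t + 1))) :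
    ∀ᶠ n : ℕ in atTop, ℓ * (n : ℝ) ^ 2 ≤ packMax t w n := by
  have hM : 1 ≤ a + c := by
    by_contra hcon
    have ha : a = 0 := by omega
    have hc : c = 0 := by omega
    rw [ha, hc] at ht
    omega
  set S : Set ℝ := {x | ∀ᶠ n : ℕ in atTop, x * (n : ℝ) ^ 2 ≤ packMax t w n} with hS
  have hdown : ∀ x ∈ S, ∀ y ≤ x, y ∈ S := by
    intro x hx y hy
    rw [hS, Set.mem_ofPred_eq] at hx ⊢
    filter_upwards [hx] with n hn
    exact (mul_le_mul_of_nonneg_right hy (sq_nonneg _)).trans hn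
  have h0 : (0 : ℝ) ∈ S := by
    rw [hS, Set.mem_ofPred_eq]
    filter_upwards with n
    simp
  -- S is bounded above
  have hbdd : BddAbove S := by
    refine ⟨3, ?_⟩
    intro x hx
    rw [hS, Set.mem_ofPred_eq] at hx
    obtain ⟨n, hn, hn1⟩ := (hx.and (eventually_ge_atTop 1)).exists
    have h1 := upper_pack hw (packMax_spec (t := t) hw n)
    have hD : 1 ≤ (2 * w - 3) * (t + 1) := Nat.mul_pos (by omega) (by omega)
    set D := (2 * w - 3) * (t + 1) with hDdef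
    have h2 : n.choose 2 ≤ n ^ 2 := by
      rw [Nat.choose_two_right]
      calc n * (n - 1) / 2 ≤ n * (n - 1) := Nat.div_le_self _ _
        _ ≤ n * n := Nat.mul_le_mul_left _ (by omega)
        _ = n ^ 2 := by ring
    have h3 : D * packMax t w n ≤ D * (n ^ 2 + (n + 1)) := by
      calc D * packMax t w n ≤ n.choose 2 + D * (n + 1) := h1
        _ ≤ D * n ^ 2 + D * (n + 1) := by nlinarith
        _ = _ := by ring
    have h4 : packMax t w n ≤ n ^ 2 + (n + 1) := Nat.le_of_mul_le_mul_left h3 (by omega)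
    have h5 : (packMax t w n : ℝ) ≤ 3 * (n : ℝ) ^ 2 := by
      have : packMax t w n ≤ 3 * n ^ 2 := by nlinarith
      exact_mod_cast this
    have hn' : (1 : ℝ) ≤ n := by exact_mod_cast hn1
    have h6 : x * (n : ℝ) ^ 2 ≤ 3 * (n : ℝ) ^ 2 := hn.trans h5
    exact le_of_mul_le_mul_right h6 (by positivity)
  set L := sSup S with hL
  set M := a + c with hMdef
  set Q := (2 * w - 3) * M + c with hQ
  set G := 2 * w - 3 with hG
  have hQ1 : 1 ≤ Q := by
    rw [hQ]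
    have : 1 * 1 ≤ G * M := Nat.mul_le_mul (by omega) hM
    omega
  have hQ' : (0 : ℝ) < Q := by exact_mod_cast hQ1
  have hM' : (0 : ℝ) < M := by exact_mod_cast hM
  have hL0 : 0 ≤ L := le_csSup hbdd h0
  -- fixed point inequality
  have hfix : ((M : ℝ) + L * ((G : ℝ) * (M : ℝ) ^ 2 + (c : ℝ) ^ 2)) / (Q : ℝ) ^ 2 ≤ L := by
    apply le_of_forall_pos_le_add
    intro δ hδ
    -- choose x in S close to L
    set K : ℝ := ((G : ℝ) * (M : ℝ) ^ 2 + (c : ℝ) ^ 2) / (Q : ℝ) ^ 2 with hK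
    have hK0 : 0 ≤ K := by positivity
    obtain ⟨x, hxS, hx⟩ := exists_lt_of_lt_csSup ⟨0, h0⟩
      (show L - δ / (2 * (K + 1)) < sSup S by
        have : 0 < δ / (2 * (K + 1)) := by positivity
        linarith)
    have h1 := improve hw ht hM hxS (ε := δ / 2) (by linarith)
    have h2 : ((M : ℝ) + x * ((G : ℝ) * (M : ℝ) ^ 2 + (c : ℝ) ^ 2)) / (Q : ℝ) ^ 2 - δ / 2 ∈ S := h1
    have h3 := le_csSup hbdd h2
    have e1 : ((M : ℝ) + x * ((G : ℝ) * (M : ℝ) ^ 2 + (c : ℝ) ^ 2)) / (Q : ℝ) ^ 2 =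
        (M : ℝ) / (Q : ℝ) ^ 2 + x * K := by rw [hK]; ring
    have e2 : ((M : ℝ) + L * ((G : ℝ) * (M : ℝ) ^ 2 + (c : ℝ) ^ 2)) / (Q : ℝ) ^ 2 =
        (M : ℝ) / (Q : ℝ) ^ 2 + L * K := by rw [hK]; ring
    rw [e1] at h3
    rw [e2]
    have h4 : (L - x) * K ≤ δ / 2 := by
      have h5 : L - x ≤ δ / (2 * (K + 1)) := by linarith
      calc (L - x) * K ≤ δ / (2 * (K + 1)) * K := mul_le_mul_of_nonneg_right h5 hK0
        _ ≤ δ / (2 * (K + 1)) * (K + 1) := by
            apply mul_le_mul_of_nonneg_left (by linarith) (by positivity)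
        _ = δ / 2 := by field_simp
    have h6 : L * K = x * K + (L - x) * K := by ring
    linarith
  -- solve the inequality
  have hLge : 1 / ((4 * (w : ℝ) - 6) * (t + 1)) ≤ L := by
    have hGr : (G : ℝ) = 2 * w - 3 := by
      rw [hG, Nat.cast_sub (by omega)]; push_cast; ring
    have hQr : (Q : ℝ) = (G : ℝ) * M + c := by rw [hQ]; push_cast; ring
    have hMr : (M : ℝ) = a + c := by rw [hMdef]; push_cast; ring
    have htr : (t : ℝ) + 1 = a * ((w : ℝ) - 2) + c * ((w : ℝ) - 1) := by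
      have h1 : ((t + 1 : ℕ) : ℝ) = ((a * (w - 2) + c * (w - 1) : ℕ) : ℝ) := by rw [ht]
      rw [Nat.cast_add, Nat.cast_add, Nat.cast_mul, Nat.cast_mul, Nat.cast_sub (by omega),
        Nat.cast_sub (by omega)] at h1
      push_cast at h1
      exact h1
    rw [div_le_iff₀ (by positivity)] at hfix
    have hw' : (4 : ℝ) ≤ w := by exact_mod_cast hw
    have e3 : (Q : ℝ) ^ 2 - ((G : ℝ) * (M : ℝ) ^ 2 + (c : ℝ) ^ 2) =
        M * ((4 * (w : ℝ) - 6) * (t + 1)) := by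
      rw [hQr, hGr, htr, hMr]
      ring
    have h7 : (M : ℝ) ≤ L * (M * ((4 * (w : ℝ) - 6) * (t + 1))) := by
      rw [← e3]; linarith
    have h8 : (0 : ℝ) < (4 * (w : ℝ) - 6) * (t + 1) := by
      have : (0 : ℝ) < 4 * (w : ℝ) - 6 := by linarith
      positivity
    rw [div_le_iff₀ h8]
    have h9 : (M : ℝ) * 1 ≤ M * (L * ((4 * (w : ℝ) - 6) * (t + 1))) := by linarith
    exact le_of_mul_le_mul_left h9 hM'
  obtain ⟨x, hxS, hx⟩ := exists_lt_of_lt_csSup ⟨0, h0⟩ (lt_of_lt_of_le hℓ hLge)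
  exact hdown x hxS ℓ hx.le

/-- **The limit.** -/
theorem limit_of_repr {t w a c : ℕ} (hw : 4 ≤ w) (ht : t + 1 = a * (w - 2) + c * (w - 1)) :
    Tendsto (fun n : ℕ => (maxSize n t w (w - 2) : ℝ) / (n : ℝ) ^ 2) atTop
      (𝓝 (1 / ((4 * (w : ℝ) - 6) * (t + 1)))) := by
  rw [tendsto_order]
  constructor
  · intro ℓ hℓ
    obtain ⟨ℓ', h1, h2⟩ := exists_between hℓ
    filter_upwards [lower_density hw ht h2, eventually_ge_atTop t, eventually_ge_atTop 1]
      with n h3 h4 h5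
    have h6 : (packMax t w n : ℝ) ≤ maxSize n t w (w - 2) := by
      exact_mod_cast packMax_le_maxSize hw h4
    have hn' : (0 : ℝ) < n := by
      have : 0 < n := by omega
      exact_mod_cast this
    rw [lt_div_iff₀ (by positivity)]
    calc ℓ * (n : ℝ) ^ 2 < ℓ' * (n : ℝ) ^ 2 := mul_lt_mul_of_pos_right h1 (by positivity)
      _ ≤ _ := h3
      _ ≤ _ := h6
  · intro U hU
    set D : ℝ := (2 * (w : ℝ) - 3) * (t + 1) with hD
    have hw' : (4 : ℝ) ≤ w := by exact_mod_cast hw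
    have hD0 : 0 < D := by
      have : (0 : ℝ) < 2 * (w : ℝ) - 3 := by linarith
      positivity
    have e1 : 1 / ((4 * (w : ℝ) - 6) * (t + 1)) = 1 / (2 * D) := by
      rw [hD]; congr 1; ring
    rw [e1] at hU
    have t1 : Tendsto (fun n : ℕ => 1 / (2 * D) + 2 / (n : ℝ)) atTop (𝓝 (1 / (2 * D) + 0)) :=
      tendsto_const_nhds.add (tendsto_const_div_atTop_nhds_zero_nat 2)
    rw [add_zero] at t1
    filter_upwards [t1.eventually_lt_const hU, eventually_ge_atTop t, eventually_ge_atTop 1]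
      with n h3 h4 h5
    have h6 := maxSize_le hw h4
    have hn' : (1 : ℝ) ≤ n := by exact_mod_cast h5
    have h7 : (((2 * w - 3) * (t + 1) * maxSize n t w (w - 2) : ℕ) : ℝ) ≤
        ((n.choose 2 + (2 * w - 3) * (t + 1) * (n + 1) : ℕ) : ℝ) := by exact_mod_cast h6
    have e2 : ((2 * w - 3 : ℕ) : ℝ) = 2 * (w : ℝ) - 3 := by
      rw [Nat.cast_sub (by omega)]; push_cast; ring
    have h8 : D * (maxSize n t w (w - 2) : ℝ) ≤ (n : ℝ) ^ 2 / 2 + D * (2 * n) := by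
      have h9 : (n.choose 2 : ℝ) ≤ (n : ℝ) ^ 2 / 2 := by
        rw [Nat.cast_choose_two]
        nlinarith
      push_cast [e2] at h7
      have h10 : D * ((n : ℝ) + 1) ≤ D * (2 * n) :=
        mul_le_mul_of_nonneg_left (by linarith) hD0.le
      rw [hD] at h10 ⊢
      linarith
    refine lt_of_le_of_lt ?_ h3
    rw [div_le_iff₀ (by positivity)]
    have e3 : (1 / (2 * D) + 2 / (n : ℝ)) * (n : ℝ) ^ 2 =
        ((n : ℝ) ^ 2 / 2 + D * (2 * n)) / D := by
      field_simp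
    rw [e3, le_div_iff₀ hD0]
    linarith

/-- in the range of the problem, `t+1` is a combination of `w-2` and `w-1` -/
lemma exists_repr {t w : ℕ} (hw : 4 ≤ w) (ht1 : 1 ≤ t)
    (h : (t + 1) * w * (w - 1) < (w + t) * (w + t - 1)) :
    ∃ a c : ℕ, t + 1 = a * (w - 2) + c * (w - 1) := by
  obtain ⟨v, rfl⟩ : ∃ v, w = v + 2 := ⟨w - 2, by omega⟩
  have e1 : v + 2 - 1 = v + 1 := by omega
  have e2 : v + 2 + t - 1 = v + 1 + t := by omega
  rw [e1, e2] at h
  have e3 : v + 2 - 2 = v := by omega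
  rw [e1, e3]
  have hv : 2 ≤ v := by omega
  -- t ≥ v (v+1)
  have hlarge : v * (v + 1) ≤ t := by
    by_contra hlt
    push Not at hlt
    nlinarith
  -- division
  have h1 := Nat.div_add_mod (t + 1) v
  have h2 := Nat.mod_lt (t + 1) (show 0 < v by omega)
  have h3 : v + 1 ≤ (t + 1) / v := by
    rw [Nat.le_div_iff_mul_le (by omega)]
    nlinarith
  refine ⟨(t + 1) / v - (t + 1) % v, (t + 1) % v, ?_⟩
  have h4 : (t + 1) % v ≤ (t + 1) / v := by omega
  obtain ⟨k, hk⟩ : ∃ k, (t + 1) / v = (t + 1) % v + k := ⟨_, (Nat.add_sub_of_le h4).symm⟩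
  rw [hk] at h1 ⊢
  rw [Nat.add_sub_cancel_left]
  set r := (t + 1) % v
  nlinarith

lemma value_lt {t w : ℕ} (hw : 4 ≤ w) :
    1 / (((t : ℝ) + 1) * w * (w - 1)) < 1 / ((4 * (w : ℝ) - 6) * (t + 1)) := by
  have hw' : (4 : ℝ) ≤ w := by exact_mod_cast hw
  have h0 : (0 : ℝ) < (t : ℝ) + 1 := by positivity
  apply one_div_lt_one_div_of_lt
  · have : (0 : ℝ) < 4 * (w : ℝ) - 6 := by linarith
    positivity
  · have : 4 * (w : ℝ) - 6 < w * (w - 1) := by nlinarith
    calc (4 * (w : ℝ) - 6) * (t + 1) < (w * (w - 1)) * (t + 1) :=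
          mul_lt_mul_of_pos_right this h0
      _ = _ := by ring

end Pool.Agent.Work.MP_00ae1c_co
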